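import Mathlib

namespace Pool.Agent.Results.MP_859259_nt.Fails

lemma central (m : ℕ) :
    ((2 * m).choose m : ZMod 3) = 0 ∨ ((2 * m).choose m : ZMod 3) = (-1) ^ m := by
  induction m using Nat.strong_induction_on with
  | _ m ih =>
    rcases Nat.eq_zero_or_pos m with rfl | hm
    · simp
    have h : ((2 * m).choose m : ZMod 3) =
        ((2 * m % 3).choose (m % 3) : ℕ) * ((2 * m / 3).choose (m / 3) : ℕ) := by
      have := Fact.mk Nat.prime_three
      rw [← Nat.cast_mul]
      exact (ZMod.natCast_eq_natCast_iff _ _ _).2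
        Choose.choose_modEq_choose_mod_mul_choose_div_nat
    have h3 := ih (m / 3) (by omega)
    have hm3 : m = 3 * (m / 3) + m % 3 := (Nat.div_add_mod m 3).symm
    have e : (-1 : ZMod 3) ^ m = (-1) ^ (m / 3) * (-1) ^ (m % 3) := by
      conv_lhs => rw [hm3, pow_add, pow_mul]
      norm_num
    rcases (by omega : m % 3 = 0 ∨ m % 3 = 1 ∨ m % 3 = 2) with h1 | h1 | h1
    · rw [h, e, h1, show 2 * m % 3 = 0 by omega, show 2 * m / 3 = 2 * (m / 3) by omega]
      simpa using h3
    · rw [h, e, h1, show 2 * m % 3 = 2 by omega, show 2 * m / 3 = 2 * (m / 3) by omega]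
      rcases h3 with h3 | h3
      · left; rw [h3, mul_zero]
      · right; rw [h3, mul_comm]; congr 1
    · left
      rw [h, h1, show 2 * m % 3 = 1 by omega]
      simp

/-- The conjecture fails: it is not true that for all a > b > 0, integers alpha, beta, primes p
coprime to a and residues r < p, infinitely many n have the binomial congruent to r. -/
theorem result : ¬ ∀ (a b : ℕ) (α β : ℤ) (p : ℕ), 0 < b → b < a → p.Prime → Nat.Coprime p a →
    ∀ r < p, {n : ℕ | 0 < n ∧
      ((a : ℤ) * n + α).toNat.choose ((b : ℤ) * n + β).toNat ≡ r [MOD p]}.Infinite := by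
  intro h
  obtain ⟨n, -, hn⟩ := (h 4 2 0 0 3 (by norm_num) (by norm_num) Nat.prime_three (by norm_num) 2
    (by norm_num)).nonempty
  rw [show (((4 : ℕ) : ℤ) * n + 0).toNat = 2 * (2 * n) by omega,
    show (((2 : ℕ) : ℤ) * n + 0).toNat = 2 * n by omega, ← ZMod.natCast_eq_natCast_iff] at hn
  rcases central (2 * n) with h1 | h1
  · rw [hn] at h1; revert h1; decide
  · rw [hn, pow_mul] at h1; simp at h1; revert h1; decide

end Pool.Agent.Results.MP_859259_nt.Fails
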